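import Pool.Agent.T2H38.RM.Fin

set_option autoImplicit false
universe u v

open IsLocalRing

namespace Pool.Agent.Results.MP_d7d607_ag.DimensionOne

/-- Q1 of MP_d7d607_ag for every reduced complete Noetherian local ring `R` of Krull dimension one
that contains a field `k` over which its residue field is finite (by Cohen's structure theorem:
every reduced complete one-dimensional local ring containing a field).  For every `N` there are
finitely many `R`-modules `F 0, …, F (n - 1)` such that every finite maximal Cohen–Macaulay
`R`-module `M` of Hilbert–Samuel multiplicity at most `N` all of whose self-extensions split is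
isomorphic to one of them.  The conditions on `M` are literally those of the frozen statement. -/
theorem result {k : Type v} [Field k] (R : Type u) [CommRing R] [IsLocalRing R]
    [IsNoetherianRing R] [IsReduced R] [Algebra k R] [Module.Finite k (ResidueField R)]
    (hcomp : IsAdicComplete (maximalIdeal R) R) (hdim : ringKrullDim R = 1) (N : ℕ) :
    ∃ (n : ℕ) (F : Fin n → ModuleCat.{u} R),
      ∀ (M : Type u) [AddCommGroup M] [Module R M],
        Module.Finite R M →
        (∃ rs : List R,
            (∀ r ∈ rs, r ∈ maximalIdeal R) ∧
            RingTheory.Sequence.IsRegular M rs ∧
            ((rs.length : WithBot ℕ∞) = ringKrullDim R) ∧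
            ∃ e : ℝ, e ≤ (N : ℝ) ∧
              Filter.Tendsto
                (fun n : ℕ =>
                  ((rs.length).factorial : ℝ) *
                    ((Module.length R
                        (M ⧸ ((maximalIdeal R ^ n) • (⊤ : Submodule R M)))).toNat : ℝ) /
                    ((n : ℝ) ^ rs.length))
                Filter.atTop (nhds e)) →
        (∀ (E : Type u) [AddCommGroup E] [Module R E]
            (f : M →ₗ[R] E) (g : E →ₗ[R] M),
            Function.Injective f → Function.Surjective g →
            LinearMap.range f = LinearMap.ker g →
            ∃ s : M →ₗ[R] E, g ∘ₗ s = LinearMap.id) →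
        ∃ i : Fin n, Nonempty (M ≃ₗ[R] (F i)) :=
  Pool.Agent.T2H38.RM.main (k := k) R hcomp hdim N

end Pool.Agent.Results.MP_d7d607_ag.DimensionOne
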